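import Mathlib
import Pool.Agent.TH525.LAD.Konig

set_option autoImplicit false

/-!
# A bipartite graph of maximum degree two inside the functional graph of a permutation
-/

namespace Pool.Agent.TH104.CF

open Finset

theorem two_perm {V : Type} [Fintype V] [DecidableEq V] (Γ : SimpleGraph V)
    [DecidableRel Γ.Adj] (χ : V → Bool) (hdeg : ∀ v, Γ.degree v ≤ 2) :
    ∃ τ : Equiv.Perm (V × Bool), ∀ u w, Γ.Adj u w → χ u = true →
      (τ (u, true) = (w, false) ∨ τ (w, false) = (u, true)) := by
  classical
  set M0 : V → V → ℕ := fun v w => if Γ.Adj v w ∧ χ v = true then 1 else 0 with hM0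
  have hrow : ∀ v, ∑ w, M0 v w ≤ 2 := by
    intro v
    rw [hM0]
    simp only
    rw [← Finset.card_filter]
    refine le_trans ?_ (hdeg v)
    rw [← SimpleGraph.card_neighborFinset_eq_degree]
    apply Finset.card_le_card
    intro w hw
    rw [mem_filter] at hw
    rw [SimpleGraph.mem_neighborFinset]
    exact hw.2.1
  have hcol : ∀ w, ∑ v, M0 v w ≤ 2 := by
    intro w
    rw [hM0]
    simp only
    rw [← Finset.card_filter]
    refine le_trans ?_ (hdeg w)
    rw [← SimpleGraph.card_neighborFinset_eq_degree]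
    apply Finset.card_le_card
    intro v hv
    rw [mem_filter] at hv
    rw [SimpleGraph.mem_neighborFinset]
    exact hv.2.1.symm
  have htot : ∑ v, ∑ w, M0 v w ≤ 2 * Fintype.card V := by
    calc ∑ v, ∑ w, M0 v w ≤ ∑ _v : V, 2 := Finset.sum_le_sum fun v _ => hrow v
      _ = 2 * Fintype.card V := by simp [mul_comm]
  obtain ⟨M', h1, h2, h3⟩ := Pool.Agent.TH525.LAD.fill 2
    (2 * Fintype.card V - ∑ v, ∑ w, M0 v w) M0 hrow hcol (by omega)
  obtain ⟨σ, hσ⟩ := Pool.Agent.H150R2.ZSF.koenig 2 M' h2 h3
  refine ⟨⟨fun y => if y.2 = true then (σ 0 y.1, false) else ((σ 1).symm y.1, true),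
    fun y => if y.2 = true then (σ 1 y.1, false) else ((σ 0).symm y.1, true), ?_, ?_⟩, ?_⟩
  · rintro ⟨v, b⟩
    cases b <;> simp
  · rintro ⟨v, b⟩
    cases b <;> simp
  · intro u w huw hu
    have h4 : 1 ≤ M' u w := by
      refine le_trans (le_of_eq ?_) (h1 u w)
      rw [hM0]
      simp only
      rw [if_pos ⟨huw, hu⟩]
    rw [hσ, Fin.sum_univ_two] at h4
    by_cases h0 : σ 0 u = w
    · left
      show (if (true : Bool) = true then (σ 0 u, false) else ((σ 1).symm u, true)) = (w, false)
      rw [if_pos rfl, h0]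
    · by_cases h5 : σ 1 u = w
      · right
        show (if (false : Bool) = true then (σ 0 w, false) else ((σ 1).symm w, true)) = (u, true)
        rw [if_neg (by decide), ← h5, Equiv.symm_apply_apply]
      · rw [if_neg h0, if_neg h5] at h4
        omega

end Pool.Agent.TH104.CF
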