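import Mathlib
import Pool.Agent.H238R2.HY.Part
import Pool.Agent.TH104.LS.D

set_option autoImplicit false

/-!
# A sparse set which meets all long orbits of a permutation
-/

namespace Pool.Agent.TH104.CF

open Finset Pool.Agent.Helper635.LLL Pool.Agent.H238R2.HY Pool.Agent.TH104.LS

/-- functions avoiding a value on a set -/
lemma card_avoid {Y : Type} [Fintype Y] [DecidableEq Y] (M : ℕ) (hM : 1 ≤ M) (S : Finset Y)
    (a : Fin M) :
    ((univ.filter (fun ω : Y → Fin M => ∀ z ∈ S, ω z ≠ a)).card : ℝ) ≤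
      Real.exp (-((S.card : ℝ) / M)) * (Fintype.card (Y → Fin M) : ℝ) := by
  have hMr : (0 : ℝ) < M := by exact_mod_cast hM
  have h1 : univ.filter (fun ω : Y → Fin M => ∀ z ∈ S, ω z ≠ a) =
      Fintype.piFinset (fun z => if z ∈ S then (univ.erase a : Finset (Fin M)) else univ) := by
    ext ω
    rw [mem_filter, Fintype.mem_piFinset]
    constructor
    · rintro ⟨_, h⟩ z
      split_ifs with hz
      · exact mem_erase.2 ⟨h z hz, mem_univ _⟩
      · exact mem_univ _
    · intro h
      refine ⟨mem_univ _, fun z hz => ?_⟩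
      have := h z
      rw [if_pos hz] at this
      exact (mem_erase.1 this).1
  have h2 : ∀ z : Y, ((if z ∈ S then (univ.erase a : Finset (Fin M)) else univ).card : ℝ) =
      (if z ∈ S then (1 - 1 / (M : ℝ)) else 1) * M := by
    intro z
    split_ifs with hz
    · rw [card_erase_of_mem (mem_univ a), card_univ, Fintype.card_fin, Nat.cast_sub hM]
      field_simp
      simp
    · rw [card_univ, Fintype.card_fin, one_mul]
  rw [h1, Fintype.card_piFinset, Nat.cast_prod, Finset.prod_congr rfl (fun z _ => h2 z),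
    Finset.prod_mul_distrib, Fintype.card_fun, Fintype.card_fin, Nat.cast_pow,
    Finset.prod_const (M : ℝ), Finset.card_univ]
  apply mul_le_mul_of_nonneg_right _ (by positivity)
  rw [Finset.prod_ite, Finset.prod_const_one, mul_one, Finset.prod_const]
  have h3 : (univ.filter (fun z => z ∈ S)) = S := by ext; simp
  rw [h3]
  have h4 : 1 - 1 / (M : ℝ) ≤ Real.exp (-(1 / (M : ℝ))) := by
    have := Real.add_one_le_exp (-(1 / (M : ℝ)))
    linarith
  have h5 : 0 ≤ 1 - 1 / (M : ℝ) := by
    rw [sub_nonneg, div_le_one hMr]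
    exact_mod_cast hM
  calc (1 - 1 / (M : ℝ)) ^ S.card ≤ (Real.exp (-(1 / (M : ℝ)))) ^ S.card :=
        pow_le_pow_left₀ h5 h4 _
    _ = Real.exp (-((S.card : ℝ) / M)) := by
        rw [← Real.exp_nat_mul]; congr 1; ring

section

variable {V Y : Type} [Fintype V] [Fintype Y]

open Classical in
/-- the coordinates of the events -/
noncomputable def SS (G : SimpleGraph V) [DecidableRel G.Adj] (D : ℕ) (e : V → Y)
    (τ : Equiv.Perm Y) : V ⊕ Y → Finset Y :=
  Sum.elim (fun v => (G.neighborFinset v).image e) (fun y => (range D).image (fun n => (τ^[n]) y))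

open Classical in
/-- the bad events -/
def Bad (G : SimpleGraph V) [DecidableRel G.Adj] (D M B : ℕ) (a : Fin M) (e : V → Y)
    (τ : Equiv.Perm Y) : V ⊕ Y → (Y → Fin M) → Prop
  | Sum.inl v, ω => B + 1 ≤ (((G.neighborFinset v).image e).filter (fun z => ω z = a)).card
  | Sum.inr y, ω => D ≤ Function.minimalPeriod τ y ∧
      ∀ z ∈ (range D).image (fun n => (τ^[n]) y), ω z ≠ a

lemma SS_card (G : SimpleGraph V) [DecidableRel G.Adj] (D : ℕ)
    (hD : ∀ v, G.degree v ≤ D) (e : V → Y) (τ : Equiv.Perm Y) (i : V ⊕ Y) :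
    (SS G D e τ i).card ≤ D := by
  classical
  rcases i with v | y
  · show ((G.neighborFinset v).image e).card ≤ D
    refine Finset.card_image_le.trans ?_
    rw [SimpleGraph.card_neighborFinset_eq_degree]
    exact hD v
  · show ((range D).image (fun n => (τ^[n]) y)).card ≤ D
    refine Finset.card_image_le.trans ?_
    rw [card_range]

open Classical in
lemma SS_pt (G : SimpleGraph V) [DecidableRel G.Adj] (D : ℕ)
    (hD : ∀ v, G.degree v ≤ D) (e : V → Y) (he : Function.Injective e) (τ : Equiv.Perm Y)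
    (z : Y) : (univ.filter (fun j : V ⊕ Y => z ∈ SS G D e τ j)).card ≤ 2 * D := by
  have hsub : univ.filter (fun j : V ⊕ Y => z ∈ SS G D e τ j) ⊆
      ((univ.filter (fun v : V => z ∈ (G.neighborFinset v).image e)).image Sum.inl) ∪
      ((range D).image (fun n => Sum.inr ((τ.symm^[n]) z))) := by
    intro j hj
    rw [mem_filter] at hj
    rw [mem_union]
    rcases j with v | y
    · left
      exact mem_image.2 ⟨v, mem_filter.2 ⟨mem_univ _, hj.2⟩, rfl⟩
    · right
      have h1 : z ∈ (range D).image (fun n => (τ^[n]) y) := hj.2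
      rw [mem_image] at h1
      obtain ⟨n, hn, h2⟩ := h1
      refine mem_image.2 ⟨n, hn, ?_⟩
      congr 1
      rw [← h2]
      exact Function.LeftInverse.iterate (fun y => Equiv.symm_apply_apply τ y) n y
  refine (Finset.card_le_card hsub).trans ((Finset.card_union_le _ _).trans ?_)
  have h1 : ((univ.filter (fun v : V => z ∈ (G.neighborFinset v).image e)).image
      (Sum.inl : V → V ⊕ Y)).card ≤ D := by
    refine Finset.card_image_le.trans ?_
    by_cases hz : ∃ u, e u = z
    · obtain ⟨u, rfl⟩ := hz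
      refine le_trans (Finset.card_le_card (t := G.neighborFinset u) ?_) (by
        rw [SimpleGraph.card_neighborFinset_eq_degree]; exact hD u)
      intro v hv
      rw [mem_filter, mem_image] at hv
      obtain ⟨_, u', hu', h2⟩ := hv
      rw [he h2] at hu'
      rw [SimpleGraph.mem_neighborFinset] at hu' ⊢
      exact hu'.symm
    · have : univ.filter (fun v : V => z ∈ (G.neighborFinset v).image e) = ∅ := by
        apply Finset.filter_eq_empty_iff.2
        intro v _ h
        rw [mem_image] at h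
        obtain ⟨u, _, h2⟩ := h
        exact hz ⟨u, h2⟩
      rw [this]; simp
  have h2 : ((range D).image (fun n => (Sum.inr ((τ.symm^[n]) z) : V ⊕ Y))).card ≤ D := by
    refine Finset.card_image_le.trans ?_
    rw [card_range]
  omega

open Classical in
lemma SS_dep (G : SimpleGraph V) [DecidableRel G.Adj] (D : ℕ)
    (hD : ∀ v, G.degree v ≤ D) (e : V → Y) (he : Function.Injective e) (τ : Equiv.Perm Y)
    (i : V ⊕ Y) :
    (univ.filter (fun j : V ⊕ Y => ¬ Disjoint (SS G D e τ i) (SS G D e τ j))).card ≤ 2 * D ^ 2 := by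
  have hsub : univ.filter (fun j : V ⊕ Y => ¬ Disjoint (SS G D e τ i) (SS G D e τ j)) ⊆
      (SS G D e τ i).biUnion (fun z => univ.filter (fun j : V ⊕ Y => z ∈ SS G D e τ j)) := by
    intro j hj
    rw [mem_filter, Finset.not_disjoint_iff] at hj
    obtain ⟨z, hz1, hz2⟩ := hj.2
    rw [mem_biUnion]
    exact ⟨z, hz1, mem_filter.2 ⟨mem_univ _, hz2⟩⟩
  have h1 := (Finset.card_le_card hsub).trans Finset.card_biUnion_le
  have hs := Finset.sum_le_sum (s := SS G D e τ i) (fun z _ => SS_pt G D hD e he τ z)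
  rw [Finset.sum_const, smul_eq_mul] at hs
  have h2 := SS_card G D hD e τ i
  calc _ ≤ _ := h1
    _ ≤ (SS G D e τ i).card * (2 * D) := hs
    _ ≤ D * (2 * D) := Nat.mul_le_mul_right _ h2
    _ = 2 * D ^ 2 := by ring

lemma Bad_dep (G : SimpleGraph V) [DecidableRel G.Adj] (D M B : ℕ) (a : Fin M) (e : V → Y)
    (τ : Equiv.Perm Y) (i : V ⊕ Y) :
    Pool.Agent.Helper635.LLL.DependsOn (Bad G D M B a e τ i) (SS G D e τ i) := by
  classical
  rcases i with v | y
  · intro ω ω' hag hbad
    have hag' : ∀ z ∈ (G.neighborFinset v).image e, ω z = ω' z := hag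
    have hbad' : B + 1 ≤ (((G.neighborFinset v).image e).filter (fun z => ω z = a)).card := hbad
    show B + 1 ≤ (((G.neighborFinset v).image e).filter (fun z => ω' z = a)).card
    refine hbad'.trans (Finset.card_le_card ?_)
    intro z hz
    rw [mem_filter] at hz ⊢
    exact ⟨hz.1, by rw [← hag' z hz.1]; exact hz.2⟩
  · intro ω ω' hag hbad
    have hag' : ∀ z ∈ (range D).image (fun n => (τ^[n]) y), ω z = ω' z := hag
    exact ⟨hbad.1, fun z hz => by rw [← hag' z hz]; exact hbad.2 z hz⟩

open Classical in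
lemma Bad_prob (G : SimpleGraph V) [DecidableRel G.Adj] (D M : ℕ) (hM : 1 ≤ M)
    (hD : ∀ v, G.degree v ≤ D) (e : V → Y) (τ : Equiv.Perm Y)
    (B : ℕ) (hB : 2 * (D : ℝ) / M ≤ ((B + 1 : ℕ) : ℝ)) (a : Fin M) (i : V ⊕ Y) :
    (cnt (Bad G D M B a e τ i) : ℝ) ≤
      Real.exp (-((D : ℝ) / (3 * (M : ℝ)))) * Fintype.card (Y → Fin M) := by
  classical
  have hMr : (0 : ℝ) < M := by exact_mod_cast hM
  rcases i with v | y
  · have h1 := tail (V := Y) M D hM ((G.neighborFinset v).image e) (by
      refine Finset.card_image_le.trans ?_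
      rw [SimpleGraph.card_neighborFinset_eq_degree]; exact hD v) a 1 (by norm_num) le_rfl
      (B + 1) (by
        have e1 : (1 + 1) * (D : ℝ) / M = 2 * (D : ℝ) / M := by ring
        rw [e1]; exact hB)
    have e2 : (1 : ℝ) ^ 2 * D / (3 * M) = (D : ℝ) / (3 * (M : ℝ)) := by ring
    rw [e2] at h1
    exact h1
  · show (cnt (fun ω : Y → Fin M => D ≤ Function.minimalPeriod τ y ∧
        ∀ z ∈ (range D).image (fun n => (τ^[n]) y), ω z ≠ a) : ℝ) ≤ _
    rw [cnt_eq]
    by_cases hy : D ≤ Function.minimalPeriod τ y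
    · have h1 : ((range D).image (fun n => (τ^[n]) y)).card = D := by
        rw [Finset.card_image_of_injOn, card_range]
        intro n hn n' hn' h
        rw [mem_coe, mem_range] at hn hn'
        exact Function.iterate_injOn_Iio_minimalPeriod
          (Set.mem_Iio.2 (lt_of_lt_of_le hn hy)) (Set.mem_Iio.2 (lt_of_lt_of_le hn' hy)) h
      have h2 := card_avoid M hM ((range D).image (fun n => (τ^[n]) y)) a
      rw [h1] at h2
      have h3 : (univ.filter (fun ω : Y → Fin M => D ≤ Function.minimalPeriod τ y ∧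
          ∀ z ∈ (range D).image (fun n => (τ^[n]) y), ω z ≠ a)) =
          (univ.filter (fun ω : Y → Fin M =>
          ∀ z ∈ (range D).image (fun n => (τ^[n]) y), ω z ≠ a)) := by
        apply Finset.filter_congr
        intro ω _
        exact ⟨fun h => h.2, fun h => ⟨hy, h⟩⟩
      rw [h3]
      refine h2.trans (mul_le_mul_of_nonneg_right ?_ (by positivity))
      apply Real.exp_le_exp.2
      have h5 : (D : ℝ) / (3 * (M : ℝ)) ≤ (D : ℝ) / (M : ℝ) := by
        have h6 : (0 : ℝ) ≤ (D : ℝ) := Nat.cast_nonneg D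
        rw [div_le_div_iff₀ (by linarith) hMr]
        exact mul_le_mul_of_nonneg_left (by linarith) h6
      linarith
    · have h3 : (univ.filter (fun ω : Y → Fin M => D ≤ Function.minimalPeriod τ y ∧
          ∀ z ∈ (range D).image (fun n => (τ^[n]) y), ω z ≠ a)) = ∅ := by
        apply Finset.filter_eq_empty_iff.2
        intro ω _ h
        exact hy h.1
      rw [h3]
      rw [Finset.card_empty, Nat.cast_zero]
      exact mul_nonneg (Real.exp_pos _).le (Nat.cast_nonneg _)

/-- A sparse set which meets all long orbits. -/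
theorem cut (G : SimpleGraph V) [DecidableRel G.Adj] (D M : ℕ) (hM : 1 ≤ M) (hD1 : 1 ≤ D)
    (hD : ∀ v, G.degree v ≤ D) (e : V → Y) (he : Function.Injective e) (τ : Equiv.Perm Y)
    (B : ℕ) (hB : 2 * (D : ℝ) / M ≤ ((B + 1 : ℕ) : ℝ))
    (h4 : 4 * Real.exp (-((D : ℝ) / (3 * (M : ℝ)))) * (2 * D ^ 2 : ℕ) ≤ 1) :
    ∃ R : Y → Bool, (∀ v, ((G.neighborFinset v).filter (fun u => R (e u) = true)).card ≤ B) ∧
      ∀ y, D ≤ Function.minimalPeriod τ y → ∃ n < D, R ((τ^[n]) y) = true := by
  classical
  obtain ⟨a⟩ : Nonempty (Fin M) := ⟨⟨0, hM⟩⟩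
  have hcardpos : 0 < Fintype.card (Y → Fin M) := by
    have : Nonempty (Fin M) := ⟨a⟩
    exact Fintype.card_pos
  have hd1 : 1 ≤ 2 * D ^ 2 := by
    have : 1 ≤ D ^ 2 := Nat.one_le_pow _ _ hD1
    omega
  obtain ⟨ω, hω⟩ := lll (ι := V ⊕ Y) univ (Bad G D M B a e τ) (SS G D e τ)
    (fun i _ => Bad_dep G D M B a e τ i) (Real.exp (-((D : ℝ) / (3 * (M : ℝ))))) (2 * D ^ 2)
    (Real.exp_pos _).le (fun i _ => Bad_prob G D M hM hD e τ B hB a i)
    (fun i _ => SS_dep G D hD e he τ i) h4 hd1 hcardpos
  refine ⟨fun z => decide (ω z = a), ?_, ?_⟩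
  · intro v
    have h1 : ¬ (B + 1 ≤ (((G.neighborFinset v).image e).filter (fun z => ω z = a)).card) :=
      hω (Sum.inl v) (mem_univ _)
    have h2 : ((G.neighborFinset v).filter (fun u => decide (ω (e u) = a) = true)).card ≤
        (((G.neighborFinset v).image e).filter (fun z => ω z = a)).card := by
      apply Finset.card_le_card_of_injOn e
      · intro u hu
        rw [mem_coe, mem_filter, decide_eq_true_eq] at hu
        rw [mem_coe, mem_filter]
        exact ⟨mem_image_of_mem e hu.1, hu.2⟩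
      · intro u _ u' _ h
        exact he h
    have h3 : ((G.neighborFinset v).filter (fun u => (fun z => decide (ω z = a)) (e u) =
        true)).card ≤ (((G.neighborFinset v).image e).filter (fun z => ω z = a)).card := h2
    omega
  · intro y hy
    have h1 : ¬ (D ≤ Function.minimalPeriod τ y ∧
        ∀ z ∈ (range D).image (fun n => (τ^[n]) y), ω z ≠ a) := hω (Sum.inr y) (mem_univ _)
    by_contra hcon
    push Not at hcon
    apply h1
    refine ⟨hy, ?_⟩
    intro z hz hza
    rw [mem_image] at hz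
    obtain ⟨n, hn, rfl⟩ := hz
    exact hcon n (mem_range.1 hn) (decide_eq_true hza)

end

end Pool.Agent.TH104.CF
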