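import Mathlib

set_option autoImplicit false

/-!
# The components which remain after the cut are small
-/

namespace Pool.Agent.TH104.CF

open Finset

theorem seg {Y : Type} [Fintype Y] (τ : Equiv.Perm Y) (R : Y → Bool) (D : ℕ) (hD1 : 1 ≤ D)
    (hR : ∀ y, D ≤ Function.minimalPeriod τ y → ∃ n < D, R ((τ^[n]) y) = true)
    (y : Y) (hy : R y = false) :
    ∃ I : Finset Y, y ∈ I ∧ I.card ≤ 2 * D ∧
      (∀ z ∈ I, ∀ z', R z' = false → (τ z = z' ∨ τ z' = z) → z' ∈ I) := by
  classical
  have hper : ∀ z : Y, z ∈ Function.periodicPts τ := fun z =>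
    Function.Injective.mem_periodicPts τ.injective z
  by_cases h : D ≤ Function.minimalPeriod τ y
  · -- long orbit
    have hb : ∃ n, R ((τ^[n]) y) = true := by
      obtain ⟨n, _, hn⟩ := hR y h
      exact ⟨n, hn⟩
    have hbD : Nat.find hb < D := by
      obtain ⟨n, hn, hn2⟩ := hR y h
      exact lt_of_le_of_lt (Nat.find_min' hb hn2) hn
    have hsy : ∀ n m : ℕ, n ≤ m → (τ^[n]) ((τ.symm^[m]) y) = (τ.symm^[m - n]) y := by
      intro n m hnm
      obtain ⟨k, rfl⟩ := Nat.exists_eq_add_of_le hnm
      rw [Function.iterate_add_apply, Nat.add_sub_cancel_left]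
      exact Function.RightInverse.iterate (fun z => Equiv.apply_symm_apply τ z) n _
    have ha : ∃ n, R ((τ.symm^[n]) y) = true ∧ n < D := by
      have h1 : Function.minimalPeriod τ ((τ.symm^[D - 1]) y) = Function.minimalPeriod τ y := by
        have h2 := Function.minimalPeriod_apply_iterate (hper ((τ.symm^[D - 1]) y)) (D - 1)
        rw [hsy _ _ le_rfl, Nat.sub_self] at h2
        exact h2.symm
      obtain ⟨n, hn, hn2⟩ := hR ((τ.symm^[D - 1]) y) (by rw [h1]; exact h)
      rw [hsy n (D - 1) (by omega)] at hn2
      exact ⟨D - 1 - n, hn2, by omega⟩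
    obtain ⟨hf1, hf2⟩ := Nat.find_spec ha
    have hfmin : ∀ m < Nat.find ha, R ((τ.symm^[m]) y) = false := by
      intro m hm
      have h1 := Nat.find_min ha hm
      by_contra h2
      rw [Bool.not_eq_false] at h2
      exact h1 ⟨h2, by omega⟩
    have hb1 := Nat.find_spec hb
    obtain ⟨a, haa⟩ : ∃ a, a = Nat.find ha := ⟨_, rfl⟩
    obtain ⟨b, hbb⟩ : ∃ b, b = Nat.find hb := ⟨_, rfl⟩
    rw [← haa] at hf1 hf2 hfmin
    rw [← hbb] at hb1 hbD
    have ha0 : a ≠ 0 := by
      rintro rfl
      rw [Function.iterate_zero_apply, hy] at hf1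
      exact absurd hf1 (by decide)
    have hb0 : b ≠ 0 := by
      rintro rfl
      rw [Function.iterate_zero_apply, hy] at hb1
      exact absurd hb1 (by decide)
    refine ⟨(range b).image (fun n => (τ^[n]) y) ∪ (range a).image (fun n => (τ.symm^[n]) y),
      ?_, ?_, ?_⟩
    · rw [mem_union, mem_image]
      left
      exact ⟨0, mem_range.2 (by omega), rfl⟩
    · refine (Finset.card_union_le _ _).trans ?_
      have h1 : ((range b).image (fun n => (τ^[n]) y)).card ≤ b := by
        refine Finset.card_image_le.trans ?_
        rw [card_range]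
      have h2 : ((range a).image (fun n => (τ.symm^[n]) y)).card ≤ a := by
        refine Finset.card_image_le.trans ?_
        rw [card_range]
      omega
    · have inF : ∀ n, R ((τ^[n]) y) = false → n ≤ b → (τ^[n]) y ∈
          (range b).image (fun n => (τ^[n]) y) ∪ (range a).image (fun n => (τ.symm^[n]) y) := by
        intro n hn hnb
        have : n ≠ b := by
          rintro rfl
          rw [hn] at hb1
          exact absurd hb1 (by decide)
        rw [mem_union, mem_image]
        left
        exact ⟨n, mem_range.2 (by omega), rfl⟩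
      have inG : ∀ n, R ((τ.symm^[n]) y) = false → n ≤ a → (τ.symm^[n]) y ∈
          (range b).image (fun n => (τ^[n]) y) ∪ (range a).image (fun n => (τ.symm^[n]) y) := by
        intro n hn hna
        have : n ≠ a := by
          rintro rfl
          rw [hn] at hf1
          exact absurd hf1 (by decide)
        rw [mem_union, mem_image, mem_image]
        right
        exact ⟨n, mem_range.2 (by omega), rfl⟩
      intro z hz z' hz' hrel
      rw [mem_union, mem_image, mem_image] at hz
      rcases hz with ⟨n, hn, rfl⟩ | ⟨n, hn, rfl⟩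
      · rw [mem_range] at hn
        rcases hrel with hrel | hrel
        · have e : z' = (τ^[n + 1]) y := by
            rw [Function.iterate_succ_apply']; exact hrel.symm
          rw [e] at hz' ⊢
          exact inF _ hz' (by omega)
        · rcases Nat.eq_zero_or_pos n with h0 | h0
          · subst h0
            have e : z' = (τ.symm^[1]) y := by
              rw [Function.iterate_one, Equiv.eq_symm_apply]
              exact hrel
            rw [e] at hz' ⊢
            exact inG _ hz' (by omega)
          · obtain ⟨k, rfl⟩ : ∃ k, n = k + 1 := ⟨n - 1, by omega⟩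
            have e : z' = (τ^[k]) y := by
              apply τ.injective
              rw [hrel, Function.iterate_succ_apply']
            rw [e] at hz' ⊢
            exact inF _ hz' (by omega)
      · rw [mem_range] at hn
        rcases hrel with hrel | hrel
        · rcases Nat.eq_zero_or_pos n with h0 | h0
          · subst h0
            have e : z' = (τ^[1]) y := by
              rw [Function.iterate_one]
              exact hrel.symm
            rw [e] at hz' ⊢
            exact inF _ hz' (by omega)
          · obtain ⟨k, rfl⟩ : ∃ k, n = k + 1 := ⟨n - 1, by omega⟩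
            have e : z' = (τ.symm^[k]) y := by
              rw [← hrel, Function.iterate_succ_apply', Equiv.apply_symm_apply]
            rw [e] at hz' ⊢
            exact inG _ hz' (by omega)
        · have e : z' = (τ.symm^[n + 1]) y := by
            rw [Function.iterate_succ_apply', Equiv.eq_symm_apply]
            exact hrel
          rw [e] at hz' ⊢
          exact inG _ hz' (by omega)
  · -- short orbit
    rw [not_le] at h
    obtain ⟨m, hm⟩ : ∃ m, m = Function.minimalPeriod τ y := ⟨_, rfl⟩
    have hm0 : 0 < m := by rw [hm]; exact Function.minimalPeriod_pos_of_mem_periodicPts (hper y)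
    have hmy : (τ^[m]) y = y := by rw [hm]; exact Function.iterate_minimalPeriod
    rw [← hm] at h
    refine ⟨(range m).image (fun n => (τ^[n]) y), ?_, ?_, ?_⟩
    · exact mem_image.2 ⟨0, mem_range.2 hm0, rfl⟩
    · refine Finset.card_image_le.trans ?_
      rw [card_range]; omega
    · intro z hz z' _ hrel
      rw [mem_image] at hz
      obtain ⟨n, hn, rfl⟩ := hz
      rw [mem_range] at hn
      rcases hrel with hrel | hrel
      · have e : z' = (τ^[n + 1]) y := by
          rw [Function.iterate_succ_apply']; exact hrel.symm
        rcases Nat.lt_or_ge (n + 1) m with h1 | h1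
        · exact mem_image.2 ⟨n + 1, mem_range.2 h1, e.symm⟩
        · have h2 : n + 1 = m := by omega
          rw [h2, hmy] at e
          exact mem_image.2 ⟨0, mem_range.2 hm0, e.symm⟩
      · obtain ⟨k, hk1, hk2⟩ : ∃ k, k < m ∧ (τ^[k + 1]) y = (τ^[n]) y := by
          rcases Nat.eq_zero_or_pos n with h0 | h0
          · refine ⟨m - 1, by omega, ?_⟩
            have : m - 1 + 1 = m := by omega
            rw [this, hmy, h0]
            rfl
          · refine ⟨n - 1, by omega, ?_⟩
            have : n - 1 + 1 = n := by omega
            rw [this]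
        have e : z' = (τ^[k]) y := by
          apply τ.injective
          rw [hrel, ← hk2, Function.iterate_succ_apply']
        exact mem_image.2 ⟨k, mem_range.2 hk1, e.symm⟩

/-- the relation of adjacent vertices outside the cut -/
def Rl {V : Type} (Γ : SimpleGraph V) (Rv : V → Bool) (u w : V) : Prop :=
  Γ.Adj u w ∧ Rv u = false ∧ Rv w = false

open Classical in
theorem class_card {V : Type} [Fintype V] (Γ : SimpleGraph V) (χ : V → Bool)
    (hχ : ∀ u w, Γ.Adj u w → χ u ≠ χ w) (τ : Equiv.Perm (V × Bool))
    (hτ : ∀ u w, Γ.Adj u w → χ u = true →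
      (τ (u, true) = (w, false) ∨ τ (w, false) = (u, true)))
    (R : V × Bool → Bool) (D : ℕ) (hD1 : 1 ≤ D)
    (hR : ∀ y, D ≤ Function.minimalPeriod τ y → ∃ n < D, R ((τ^[n]) y) = true) (u : V) :
    (univ.filter (fun w => Quot.mk (Rl Γ (fun v => R (v, χ v))) w =
      Quot.mk (Rl Γ (fun v => R (v, χ v))) u)).card ≤ 2 * D := by
  have key : ∃ J : Finset V, u ∈ J ∧ J.card ≤ 2 * D ∧
      ∀ v w, Rl Γ (fun v => R (v, χ v)) v w → (v ∈ J ↔ w ∈ J) := by
    by_cases hu : R (u, χ u) = false
    · obtain ⟨I, hI1, hI2, hI3⟩ := seg τ R D hD1 hR (u, χ u) hu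
      refine ⟨univ.filter (fun w => (w, χ w) ∈ I), mem_filter.2 ⟨mem_univ _, hI1⟩, ?_, ?_⟩
      · refine le_trans (Finset.card_le_card_of_injOn (fun w => (w, χ w)) ?_ ?_) hI2
        · intro w hw
          exact (mem_filter.1 hw).2
        · intro w _ w' _ h
          exact (Prod.mk.injEq _ _ _ _ ▸ h).1
      · have hstep : ∀ v w, Rl Γ (fun v => R (v, χ v)) v w →
            (τ (v, χ v) = (w, χ w) ∨ τ (w, χ w) = (v, χ v)) := by
          intro v w hvw
          have hne := hχ v w hvw.1
          cases hv : χ v
          · have hw : χ w = true := by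
              cases h : χ w
              · rw [hv, h] at hne; exact absurd rfl hne
              · rfl
            rw [hw]
            exact (hτ w v hvw.1.symm hw).symm
          · have hw : χ w = false := by
              cases h : χ w
              · rfl
              · rw [hv, h] at hne; exact absurd rfl hne
            rw [hw]
            exact hτ v w hvw.1 hv
        intro v w hvw
        have hs := hstep v w hvw
        rw [mem_filter, mem_filter]
        constructor
        · rintro ⟨_, h⟩
          exact ⟨mem_univ _, hI3 _ h _ hvw.2.2 hs⟩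
        · rintro ⟨_, h⟩
          exact ⟨mem_univ _, hI3 _ h _ hvw.2.1 hs.symm⟩
    · refine ⟨{u}, mem_singleton_self u, by rw [card_singleton]; omega, ?_⟩
      intro v w hvw
      rw [mem_singleton, mem_singleton]
      constructor
      · rintro rfl; exact absurd hvw.2.1 hu
      · rintro rfl; exact absurd hvw.2.2 hu
  obtain ⟨J, hJ1, hJ2, hJ3⟩ := key
  refine le_trans (Finset.card_le_card ?_) hJ2
  intro w hw
  have h1 := Quot.eqvGen_exact (mem_filter.1 hw).2
  have h2 : ∀ a b, Relation.EqvGen (Rl Γ (fun v => R (v, χ v))) a b → (a ∈ J ↔ b ∈ J) := by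
    intro a b hab
    induction hab with
    | rel a b h => exact hJ3 a b h
    | refl a => exact Iff.rfl
    | symm a b _ ih => exact ih.symm
    | trans a b c _ _ ih1 ih2 => exact ih1.trans ih2
  exact (h2 w u h1).2 hJ1

end Pool.Agent.TH104.CF
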