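import Mathlib
import Pool.Agent.QCube.Lll
import Pool.Agent.Helper635.LLL
import Pool.Agent.TH104.LS.D

set_option autoImplicit false

/-!
# Random flips of the components
-/

namespace Pool.Agent.TH104.CF

open Finset Pool.Agent.Helper635.LLL Pool.Agent.TH104.LS

lemma half_coin {Z : Type} [Fintype Z] [DecidableEq Z] (z : Z) (b : Bool) :
    2 * (univ.filter (fun ζ : Z → Bool => ζ z = b)).card ≤ Fintype.card (Z → Bool) := by
  have h1 : ((univ.filter (fun ζ : Z → Bool => ζ z = b)) ×ˢ (univ : Finset Bool)).card ≤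
      (univ : Finset (Z → Bool)).card := by
    apply Finset.card_le_card_of_injOn (fun p => Function.update p.1 z p.2)
    · intro p _
      exact mem_univ _
    · intro p hp p' hp' h
      rw [mem_coe, mem_product, mem_filter] at hp hp'
      simp only at h
      have e1 : p.2 = p'.2 := by
        have := congrFun h z
        rwa [Function.update_self, Function.update_self] at this
      have e2 : p.1 = p'.1 := by
        funext w
        by_cases hw : w = z
        · rw [hw, hp.1.2, hp'.1.2]
        · have := congrFun h w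
          rwa [Function.update_of_ne hw, Function.update_of_ne hw] at this
      exact Prod.ext e2 e1
  rw [Finset.card_product, Finset.card_univ, Finset.card_univ, Fintype.card_bool] at h1
  omega

lemma coin {V Z : Type} [Fintype Z] [DecidableEq Z] (F : Finset V) (q : V → Z) (χ : V → Bool)
    (D : ℕ) (hD1 : 1 ≤ D) (hF : F.card ≤ D) (hn : ∀ z, (F.filter (fun u => q u = z)).card ≤ 4)
    (b : Bool) (t : ℝ) (ht : 0 ≤ t) :
    ((univ.filter (fun ζ : Z → Bool => (F.card : ℝ) / 2 + t ≤
      ((F.filter (fun u => xor (χ u) (ζ (q u)) = b)).card : ℝ))).card : ℝ) ≤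
      Real.exp (-(t ^ 2) / (8 * D)) * (Fintype.card (Z → Bool) : ℝ) := by
  classical
  have hDr : (0 : ℝ) < D := by exact_mod_cast hD1
  have hN : 0 < (Fintype.card (Z → Bool) : ℝ) := by exact_mod_cast Fintype.card_pos
  have h := Pool.Agent.QCube.mcd_upper
    (fun ζ : Z → Bool => ((F.filter (fun u => xor (χ u) (ζ (q u)) = b)).card : ℝ))
    (fun z => ((F.filter (fun u => q u = z)).card : ℝ)) (fun z => Nat.cast_nonneg _)
    (by
      have key : ∀ z, ∀ ζ ζ' : Z → Bool, (∀ j, j ≠ z → ζ j = ζ' j) →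
          (F.filter (fun u => xor (χ u) (ζ (q u)) = b)).card ≤
          (F.filter (fun u => xor (χ u) (ζ' (q u)) = b)).card +
            (F.filter (fun u => q u = z)).card := by
        intro z ζ ζ' hζ
        refine le_trans (Finset.card_le_card ?_) (Finset.card_union_le _ _)
        intro u hu
        rw [mem_filter] at hu
        rw [mem_union, mem_filter, mem_filter]
        by_cases hz : q u = z
        · right; exact ⟨hu.1, hz⟩
        · left
          refine ⟨hu.1, ?_⟩
          rw [← hζ _ hz]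
          exact hu.2
      intro z ζ ζ' hζ
      have h1 := key z ζ ζ' hζ
      have h2 := key z ζ' ζ (fun j hj => (hζ j hj).symm)
      have h1' : ((F.filter (fun u => xor (χ u) (ζ (q u)) = b)).card : ℝ) ≤
          (F.filter (fun u => xor (χ u) (ζ' (q u)) = b)).card +
            (F.filter (fun u => q u = z)).card := by exact_mod_cast h1
      have h2' : ((F.filter (fun u => xor (χ u) (ζ' (q u)) = b)).card : ℝ) ≤
          (F.filter (fun u => xor (χ u) (ζ (q u)) = b)).card +
            (F.filter (fun u => q u = z)).card := by exact_mod_cast h2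
      rw [abs_le]
      constructor <;> linarith)
    (4 * D) t (by
      have h1 : ∀ z : Z, ((F.filter (fun u => q u = z)).card : ℝ) ^ 2 ≤
          4 * ((F.filter (fun u => q u = z)).card : ℝ) := by
        intro z
        have : ((F.filter (fun u => q u = z)).card : ℝ) ≤ 4 := by exact_mod_cast hn z
        have h0 : (0 : ℝ) ≤ ((F.filter (fun u => q u = z)).card : ℝ) := Nat.cast_nonneg _
        nlinarith
      refine (Finset.sum_le_sum (fun z _ => h1 z)).trans ?_
      rw [← Finset.mul_sum]
      have h2 : F.card = ∑ z : Z, (F.filter (fun u => q u = z)).card :=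
        Finset.card_eq_sum_card_fiberwise (fun u _ => mem_univ _)
      have h3 : (∑ z : Z, ((F.filter (fun u => q u = z)).card : ℝ)) = (F.card : ℝ) := by
        rw [h2]; push_cast; rfl
      rw [h3]
      have : (F.card : ℝ) ≤ D := by exact_mod_cast hF
      linarith) (by positivity) ht
  have e : -(t ^ 2) / (8 * (D : ℝ)) = -(t ^ 2) / (2 * (4 * D)) := by ring
  rw [e]
  refine le_trans ?_ h
  have hmean : (∑ ζ : Z → Bool, ((F.filter (fun u => xor (χ u) (ζ (q u)) = b)).card : ℝ)) ≤
      (F.card : ℝ) / 2 * (Fintype.card (Z → Bool) : ℝ) := by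
    have h1 : ∀ ζ : Z → Bool, ((F.filter (fun u => xor (χ u) (ζ (q u)) = b)).card : ℝ) =
        ∑ u ∈ F, if xor (χ u) (ζ (q u)) = b then (1 : ℝ) else 0 := by
      intro ζ
      rw [← Finset.sum_filter, Finset.sum_const, nsmul_eq_mul, mul_one]
    simp only [h1]
    rw [Finset.sum_comm]
    have h2 : ∀ u ∈ F, ∑ ζ : Z → Bool, (if xor (χ u) (ζ (q u)) = b then (1 : ℝ) else 0) ≤
        (Fintype.card (Z → Bool) : ℝ) / 2 := by
      intro u _
      rw [← Finset.sum_filter, Finset.sum_const, nsmul_eq_mul, mul_one]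
      have h3 : (univ.filter (fun ζ : Z → Bool => xor (χ u) (ζ (q u)) = b)) =
          univ.filter (fun ζ : Z → Bool => ζ (q u) = xor (χ u) b) := by
        apply Finset.filter_congr
        intro ζ _
        cases χ u <;> cases ζ (q u) <;> cases b <;> simp
      rw [h3]
      have h4 := half_coin (q u) (xor (χ u) b)
      have h5 : 2 * ((univ.filter (fun ζ : Z → Bool => ζ (q u) = xor (χ u) b)).card : ℝ) ≤
          (Fintype.card (Z → Bool) : ℝ) := by exact_mod_cast h4
      linarith
    refine (Finset.sum_le_sum h2).trans (le_of_eq ?_)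
    rw [Finset.sum_const, nsmul_eq_mul]
    ring
  have hsub : (univ.filter (fun ζ : Z → Bool => (F.card : ℝ) / 2 + t ≤
      ((F.filter (fun u => xor (χ u) (ζ (q u)) = b)).card : ℝ))) ⊆
      (univ.filter (fun ζ : Z → Bool =>
        (∑ ζ' : Z → Bool, ((F.filter (fun u => xor (χ u) (ζ' (q u)) = b)).card : ℝ)) /
          (Fintype.card (Z → Bool) : ℝ) + t ≤
        ((F.filter (fun u => xor (χ u) (ζ (q u)) = b)).card : ℝ))) := by
    intro ζ hζ
    rw [mem_filter] at hζ ⊢
    refine ⟨mem_univ _, le_trans ?_ hζ.2⟩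
    have : (∑ ζ' : Z → Bool, ((F.filter (fun u => xor (χ u) (ζ' (q u)) = b)).card : ℝ)) /
          (Fintype.card (Z → Bool) : ℝ) ≤ (F.card : ℝ) / 2 := by
      rw [div_le_iff₀ hN]; exact hmean
    linarith
  exact_mod_cast Finset.card_le_card hsub

section

variable {V Z : Type} [Fintype V] [Fintype Z]

open Classical in
lemma coins_dep (G : SimpleGraph V) [DecidableRel G.Adj] (D : ℕ) (hD : ∀ v, G.degree v ≤ D)
    (q : V → Z) (F : V → Finset V) (hF : ∀ v, F v ⊆ G.neighborFinset v)
    (hcl : ∀ u, (univ.filter (fun w => q w = q u)).card ≤ 2 * D) (v : V) :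
    (univ.filter (fun w => ¬ Disjoint ((F v).image q) ((F w).image q))).card ≤ 2 * D ^ 3 := by
  have hsub : univ.filter (fun w => ¬ Disjoint ((F v).image q) ((F w).image q)) ⊆
      (F v).biUnion (fun u => (univ.filter (fun w => q w = q u)).biUnion
        (fun u' => G.neighborFinset u')) := by
    intro w hw
    rw [mem_filter, Finset.not_disjoint_iff] at hw
    obtain ⟨z, hz1, hz2⟩ := hw.2
    rw [mem_image] at hz1 hz2
    obtain ⟨u, hu, rfl⟩ := hz1
    obtain ⟨u', hu', h⟩ := hz2
    rw [mem_biUnion]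
    refine ⟨u, hu, ?_⟩
    rw [mem_biUnion]
    refine ⟨u', mem_filter.2 ⟨mem_univ _, h⟩, ?_⟩
    have := hF w hu'
    rw [SimpleGraph.mem_neighborFinset] at this ⊢
    exact this.symm
  refine (Finset.card_le_card hsub).trans (Finset.card_biUnion_le.trans ?_)
  have h1 : ∀ u ∈ F v, ((univ.filter (fun w => q w = q u)).biUnion
        (fun u' => G.neighborFinset u')).card ≤ 2 * D * D := by
    intro u _
    refine Finset.card_biUnion_le.trans ?_
    have h2 : ∑ u' ∈ univ.filter (fun w => q w = q u), (G.neighborFinset u').card ≤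
        ∑ _u' ∈ univ.filter (fun w => q w = q u), D :=
      Finset.sum_le_sum (fun u' _ => by
        rw [SimpleGraph.card_neighborFinset_eq_degree]; exact hD u')
    refine h2.trans ?_
    rw [Finset.sum_const, smul_eq_mul]
    exact Nat.mul_le_mul_right _ (hcl u)
  refine (Finset.sum_le_sum h1).trans ?_
  rw [Finset.sum_const, smul_eq_mul]
  have h2 : (F v).card ≤ D := by
    refine (Finset.card_le_card (hF v)).trans ?_
    rw [SimpleGraph.card_neighborFinset_eq_degree]; exact hD v
  calc (F v).card * (2 * D * D) ≤ D * (2 * D * D) := Nat.mul_le_mul_right _ h2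
    _ = 2 * D ^ 3 := by ring

open Classical in
/-- the coins -/
theorem coins (G : SimpleGraph V) [DecidableRel G.Adj] (D : ℕ) (hD1 : 1 ≤ D)
    (hD : ∀ v, G.degree v ≤ D) (q : V → Z) (χ : V → Bool) (F : V → Finset V)
    (hF : ∀ v, F v ⊆ G.neighborFinset v)
    (hcl : ∀ u, (univ.filter (fun w => q w = q u)).card ≤ 2 * D)
    (hn : ∀ v z, ((F v).filter (fun u => q u = z)).card ≤ 4)
    (t : ℝ) (ht : 0 ≤ t)
    (h5 : 4 * (2 * Real.exp (-(t ^ 2) / (8 * D))) * (2 * D ^ 3 : ℕ) ≤ 1) :
    ∃ ζ : Z → Bool, ∀ v b,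
      (((F v).filter (fun u => xor (χ u) (ζ (q u)) = b)).card : ℝ) ≤ ((F v).card : ℝ) / 2 + t := by
  have hcardpos : 0 < Fintype.card (Z → Bool) := Fintype.card_pos
  have hd1 : 1 ≤ 2 * D ^ 3 := by
    have : 1 ≤ D ^ 3 := Nat.one_le_pow _ _ hD1
    omega
  obtain ⟨E, hE⟩ : ∃ E : V → (Z → Bool) → Prop, E = fun v ζ => ∃ b : Bool,
    ((F v).card : ℝ) / 2 + t ≤ (((F v).filter (fun u => xor (χ u) (ζ (q u)) = b)).card : ℝ) :=
    ⟨_, rfl⟩
  have hdep : ∀ v ∈ (univ : Finset V), Pool.Agent.Helper635.LLL.DependsOn (E v)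
      ((F v).image q) := by
    intro v _ ζ ζ' hag hbad
    rw [hE] at hbad ⊢
    obtain ⟨b, hb⟩ := hbad
    refine ⟨b, hb.trans (le_of_eq ?_)⟩
    congr 2
    apply Finset.filter_congr
    intro u hu
    rw [hag (q u) (mem_image_of_mem q hu)]
  have hprob : ∀ v ∈ (univ : Finset V), (cnt (E v) : ℝ) ≤
      (2 * Real.exp (-(t ^ 2) / (8 * D))) * Fintype.card (Z → Bool) := by
    intro v _
    have hFc : (F v).card ≤ D := by
      refine (Finset.card_le_card (hF v)).trans ?_
      rw [SimpleGraph.card_neighborFinset_eq_degree]; exact hD v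
    have h1 := coin (F v) q χ D hD1 hFc (hn v) true t ht
    have h2 := coin (F v) q χ D hD1 hFc (hn v) false t ht
    have h3 : cnt (E v) ≤ (univ.filter (fun ζ : Z → Bool => ((F v).card : ℝ) / 2 + t ≤
      (((F v).filter (fun u => xor (χ u) (ζ (q u)) = true)).card : ℝ))).card +
      (univ.filter (fun ζ : Z → Bool => ((F v).card : ℝ) / 2 + t ≤
      (((F v).filter (fun u => xor (χ u) (ζ (q u)) = false)).card : ℝ))).card := by
      refine le_trans (Finset.card_le_card ?_) (Finset.card_union_le _ _)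
      intro ζ hζ
      have hζ' : E v ζ := mem_ev.1 hζ
      rw [hE] at hζ'
      obtain ⟨b, hb⟩ := hζ'
      rw [mem_union, mem_filter, mem_filter]
      cases b
      · right; exact ⟨mem_univ _, hb⟩
      · left; exact ⟨mem_univ _, hb⟩
    have h4 : (cnt (E v) : ℝ) ≤ ((univ.filter (fun ζ : Z → Bool => ((F v).card : ℝ) / 2 + t ≤
      (((F v).filter (fun u => xor (χ u) (ζ (q u)) = true)).card : ℝ))).card : ℝ) +
      ((univ.filter (fun ζ : Z → Bool => ((F v).card : ℝ) / 2 + t ≤
      (((F v).filter (fun u => xor (χ u) (ζ (q u)) = false)).card : ℝ))).card : ℝ) := by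
      exact_mod_cast h3
    linarith
  obtain ⟨ζ, hζ⟩ := lll (ι := V) univ E (fun v => (F v).image q) hdep
    (2 * Real.exp (-(t ^ 2) / (8 * D))) (2 * D ^ 3) (by positivity) hprob
    (fun v _ => coins_dep G D hD q F hF hcl v) h5 hd1 hcardpos
  refine ⟨ζ, ?_⟩
  intro v b
  have h1 := hζ v (mem_univ v)
  rw [hE] at h1
  by_contra h2
  rw [not_le] at h2
  exact h1 ⟨b, h2.le⟩

end

end Pool.Agent.TH104.CF
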