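import Mathlib
import Pool.Agent.TH104.HY.D
import Pool.Agent.TH104.CF.A
import Pool.Agent.TH104.CF.B
import Pool.Agent.TH104.CF.C
import Pool.Agent.TH104.CF.D

set_option autoImplicit false

/-!
# Halving a class of a claw-free graph
-/

namespace Pool.Agent.TH104.CF

open Finset Pool.Agent.TH104.HY

/-- no vertex has three pairwise nonadjacent neighbours -/
def ClawFree {V : Type} (G : SimpleGraph V) : Prop :=
  ∀ v a b c, G.Adj v a → G.Adj v b → G.Adj v c → a ≠ b → a ≠ c → b ≠ c →
    G.Adj a b ∨ G.Adj a c ∨ G.Adj b c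

lemma two_of_claw {V : Type} [Fintype V] (G : SimpleGraph V) [DecidableRel G.Adj]
    (hcf : ClawFree G) (U : V → Bool) (c : V → ℕ)
    (hc2 : ∀ u v, U u = true → U v = true → G.Adj u v → c u ≠ c v) (v : V) (i : ℕ) :
    ((G.neighborFinset v).filter (fun u => U u = true ∧ c u = i)).card ≤ 2 := by
  classical
  by_contra h
  rw [not_le, Finset.two_lt_card] at h
  obtain ⟨a, ha, b, hb, d, hd, hab, had, hbd⟩ := h
  rw [mem_filter, SimpleGraph.mem_neighborFinset] at ha hb hd
  rcases hcf v a b d ha.1 hb.1 hd.1 hab had hbd with h1 | h1 | h1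
  · exact hc2 a b ha.2.1 hb.2.1 h1 (ha.2.2.trans hb.2.2.symm)
  · exact hc2 a d ha.2.1 hd.2.1 h1 (ha.2.2.trans hd.2.2.symm)
  · exact hc2 b d hb.2.1 hd.2.1 h1 (hb.2.2.trans hd.2.2.symm)

/-- the graph of the pairs of colours -/
def Kem {V : Type} (G : SimpleGraph V) (U : V → Bool) (c : V → ℕ) : SimpleGraph V where
  Adj u w := G.Adj u w ∧ U u = true ∧ U w = true ∧ c u / 2 = c w / 2
  symm := ⟨fun _ _ h => ⟨h.1.symm, h.2.2.1, h.2.1, h.2.2.2.symm⟩⟩
  loopless := ⟨fun _ h => G.irrefl h.1⟩

/-- greedy colouring of a sparse set -/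
lemma sparse_colour {V : Type} [Fintype V] (G : SimpleGraph V) [DecidableRel G.Adj]
    (Rv : V → Bool) (B : ℕ)
    (hR : ∀ v, ((G.neighborFinset v).filter (fun u => Rv u = true)).card ≤ B) :
    ∃ s : V → ℕ, (∀ v, s v < B + 1) ∧
      ∀ u v, G.Adj u v → Rv u = true → Rv v = true → s u ≠ s v := by
  classical
  obtain ⟨s, hs1, hs2⟩ := order_colour
    (⟨fun u w => G.Adj u w ∧ Rv u = true ∧ Rv w = true,
      ⟨fun _ _ h => ⟨h.1.symm, h.2.2, h.2.1⟩⟩, ⟨fun _ h => G.irrefl h.1⟩⟩ : SimpleGraph V)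
    (fun v => ((Fintype.equivFin V) v : ℕ))
    (fun u v h => (Fintype.equivFin V).injective (Fin.ext h)) (fun _ => 0)
    (fun v => (G.neighborFinset v).filter (fun u => Rv u = true))
    (by
      intro v u h _
      rw [mem_filter, SimpleGraph.mem_neighborFinset]
      exact ⟨h.1, h.2.2⟩) (B + 1)
    (by
      intro v y
      exact Nat.lt_succ_of_le ((Finset.card_le_card (Finset.filter_subset _ _)).trans (hR v)))
  exact ⟨s, hs1, fun u v h hu hv => hs2 u v ⟨h, hu, hv⟩ rfl⟩

theorem halving {V : Type} [Fintype V] (G : SimpleGraph V) [DecidableRel G.Adj]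
    (hcf : ClawFree G) (D M B : ℕ) (hM : 1 ≤ M) (hD1 : 1 ≤ D) (hD : ∀ v, G.degree v ≤ D)
    (hB : 2 * (D : ℝ) / M ≤ ((B + 1 : ℕ) : ℝ))
    (h4 : 4 * Real.exp (-((D : ℝ) / (3 * (M : ℝ)))) * (2 * D ^ 2 : ℕ) ≤ 1)
    (t : ℝ) (ht : 0 ≤ t)
    (h5 : 4 * (2 * Real.exp (-(t ^ 2) / (8 * D))) * (2 * D ^ 3 : ℕ) ≤ 1)
    (U : V → Bool) (c : V → ℕ) (k : ℕ) (hc1 : ∀ v, U v = true → c v < k)
    (hc2 : ∀ u v, U u = true → U v = true → G.Adj u v → c u ≠ c v)
    (d : ℝ) (hd : ∀ v, (((G.neighborFinset v).filter (fun u => U u = true)).card : ℝ) ≤ d) :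
    ∃ A : V → Bool,
      (∀ v b, (((G.neighborFinset v).filter (fun u => U u = true ∧ A u = b)).card : ℝ) ≤
        d / 2 + t + B) ∧
      ∃ c' : V → ℕ, (∀ v, U v = true → c' v < (k + 1) / 2 + (B + 1)) ∧
        ∀ u v, U u = true → U v = true → A u = A v → G.Adj u v → c' u ≠ c' v := by
  classical
  obtain ⟨χ, hχd⟩ : ∃ χ : V → Bool, χ = fun u => decide (c u % 2 = 0) := ⟨_, rfl⟩
  have hχ : ∀ u w, (Kem G U c).Adj u w → χ u ≠ χ w := by
    intro u w h hne
    have h1 := hc2 u w h.2.1 h.2.2.1 h.1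
    rw [hχd] at hne
    simp only [decide_eq_decide] at hne
    have h2 := h.2.2.2
    omega
  have hdeg2 : ∀ v, (Kem G U c).degree v ≤ 2 := by
    intro v
    rw [← SimpleGraph.card_neighborFinset_eq_degree]
    refine le_trans (Finset.card_le_card ?_)
      (two_of_claw G hcf U c hc2 v (if c v % 2 = 0 then c v + 1 else c v - 1))
    intro w hw
    rw [SimpleGraph.mem_neighborFinset] at hw
    have h1 := hc2 v w hw.2.1 hw.2.2.1 hw.1
    have h2 := hw.2.2.2
    rw [mem_filter, SimpleGraph.mem_neighborFinset]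
    refine ⟨hw.1, hw.2.2.1, ?_⟩
    split_ifs with h3 <;> omega
  obtain ⟨τ, hτ⟩ := two_perm (Kem G U c) χ hdeg2
  obtain ⟨R, hR1, hR2⟩ := cut G D M hM hD1 hD (fun v => (v, χ v))
    (fun u v h => (Prod.mk.injEq _ _ _ _ ▸ h).1) τ B hB h4
  obtain ⟨Rv, hRv⟩ : ∃ Rv : V → Bool, Rv = fun v => R (v, χ v) := ⟨_, rfl⟩
  have hR1' : ∀ v, ((G.neighborFinset v).filter (fun u => Rv u = true)).card ≤ B := by
    intro v
    have := hR1 v
    rw [hRv]
    exact this
  have hcl : ∀ u, (univ.filter (fun w => Quot.mk (Rl (Kem G U c) Rv) w =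
      Quot.mk (Rl (Kem G U c) Rv) u)).card ≤ 2 * D := by
    intro u
    have := class_card (Kem G U c) χ hχ τ hτ R D hD1 hR2 u
    rw [hRv]
    exact this
  obtain ⟨F, hF⟩ : ∃ F : V → Finset V, F = fun v =>
    (G.neighborFinset v).filter (fun u => U u = true ∧ Rv u = false) := ⟨_, rfl⟩
  have hcinv : ∀ u w, Quot.mk (Rl (Kem G U c) Rv) u = Quot.mk (Rl (Kem G U c) Rv) w →
      c u / 2 = c w / 2 := by
    intro u w h
    exact congrArg (Quot.lift (fun u => c u / 2) (fun a b hab => hab.1.2.2.2)) h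
  have : Finite (Quot (Rl (Kem G U c) Rv)) := Quot.finite _
  have hfin : Fintype (Quot (Rl (Kem G U c) Rv)) := Fintype.ofFinite _
  obtain ⟨ζ, hζ⟩ := coins G D hD1 hD (fun u => Quot.mk (Rl (Kem G U c) Rv) u) χ F
    (by intro v; rw [hF]; exact Finset.filter_subset _ _)
    (by
      intro u
      refine le_trans (le_of_eq ?_) (hcl u)
      congr 1)
    (by
      intro v z
      by_cases hne : ((F v).filter (fun u => Quot.mk (Rl (Kem G U c) Rv) u = z)).Nonempty
      · obtain ⟨u₀, hu₀⟩ := hne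
        rw [mem_filter] at hu₀
        have hsub : (F v).filter (fun u => Quot.mk (Rl (Kem G U c) Rv) u = z) ⊆
            (G.neighborFinset v).filter (fun u => U u = true ∧ c u = 2 * (c u₀ / 2)) ∪
            (G.neighborFinset v).filter (fun u => U u = true ∧ c u = 2 * (c u₀ / 2) + 1) := by
          intro u hu
          rw [mem_filter] at hu
          have h1 := hcinv u u₀ (hu.2.trans hu₀.2.symm)
          have h2 := hu.1
          rw [hF, mem_filter] at h2
          rw [mem_union, mem_filter, mem_filter]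
          by_cases h3 : c u = 2 * (c u₀ / 2)
          · left; exact ⟨h2.1, h2.2.1, h3⟩
          · right; exact ⟨h2.1, h2.2.1, by omega⟩
        refine (Finset.card_le_card hsub).trans ((Finset.card_union_le _ _).trans ?_)
        have h1 := two_of_claw G hcf U c hc2 v (2 * (c u₀ / 2))
        have h2 := two_of_claw G hcf U c hc2 v (2 * (c u₀ / 2) + 1)
        omega
      · rw [Finset.not_nonempty_iff_eq_empty] at hne
        rw [hne]; simp) t ht h5
  obtain ⟨cR, hcR1, hcR2⟩ := sparse_colour G Rv B hR1'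
  obtain ⟨A, hA⟩ : ∃ A : V → Bool, A = fun u => if Rv u = true then true else
    xor (χ u) (ζ (Quot.mk (Rl (Kem G U c) Rv) u)) := ⟨_, rfl⟩
  refine ⟨A, ?_, fun u => if Rv u = true then (k + 1) / 2 + cR u else c u / 2, ?_, ?_⟩
  · intro v b
    have hsub : (G.neighborFinset v).filter (fun u => U u = true ∧ A u = b) ⊆
        (F v).filter (fun u => xor (χ u) (ζ (Quot.mk (Rl (Kem G U c) Rv) u)) = b) ∪
        (G.neighborFinset v).filter (fun u => Rv u = true) := by
      intro u hu
      rw [mem_filter] at hu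
      rw [mem_union, mem_filter, mem_filter]
      by_cases hRu : Rv u = true
      · right; exact ⟨hu.1, hRu⟩
      · left
        have h1 := hu.2.2
        rw [hA] at h1
        simp only [if_neg hRu] at h1
        refine ⟨?_, h1⟩
        rw [hF, mem_filter]
        exact ⟨hu.1, hu.2.1, by rw [Bool.not_eq_true] at hRu; exact hRu⟩
    have h1 : (((G.neighborFinset v).filter (fun u => U u = true ∧ A u = b)).card : ℝ) ≤
        (((F v).filter (fun u => xor (χ u) (ζ (Quot.mk (Rl (Kem G U c) Rv) u)) = b)).card : ℝ) +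
        (((G.neighborFinset v).filter (fun u => Rv u = true)).card : ℝ) := by
      exact_mod_cast (Finset.card_le_card hsub).trans (Finset.card_union_le _ _)
    have h2 := hζ v b
    have h3 : (((G.neighborFinset v).filter (fun u => Rv u = true)).card : ℝ) ≤ B := by
      exact_mod_cast hR1' v
    have h4 : ((F v).card : ℝ) ≤ d := by
      refine le_trans ?_ (hd v)
      have : (F v).card ≤ ((G.neighborFinset v).filter (fun u => U u = true)).card := by
        apply Finset.card_le_card
        intro u hu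
        rw [hF, mem_filter] at hu
        exact mem_filter.2 ⟨hu.1, hu.2.1⟩
      exact_mod_cast this
    linarith
  · intro v hv
    show (if Rv v = true then (k + 1) / 2 + cR v else c v / 2) < (k + 1) / 2 + (B + 1)
    have h1 := hc1 v hv
    have h2 := hcR1 v
    split_ifs <;> omega
  · intro u v hu hv hAA huv
    show (if Rv u = true then (k + 1) / 2 + cR u else c u / 2) ≠
      (if Rv v = true then (k + 1) / 2 + cR v else c v / 2)
    have h1 := hc1 u hu
    have h2 := hc1 v hv
    by_cases hRu : Rv u = true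
    · by_cases hRv' : Rv v = true
      · rw [if_pos hRu, if_pos hRv']
        have := hcR2 u v huv hRu hRv'
        omega
      · rw [if_pos hRu, if_neg hRv']
        omega
    · by_cases hRv' : Rv v = true
      · rw [if_neg hRu, if_pos hRv']
        omega
      · rw [if_neg hRu, if_neg hRv']
        intro heq
        have hK : (Kem G U c).Adj u v := ⟨huv, hu, hv, heq⟩
        have hrel : Rl (Kem G U c) Rv u v :=
          ⟨hK, by rw [Bool.not_eq_true] at hRu; exact hRu,
            by rw [Bool.not_eq_true] at hRv'; exact hRv'⟩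
        have hq : Quot.mk (Rl (Kem G U c) Rv) u = Quot.mk (Rl (Kem G U c) Rv) v := Quot.sound hrel
        rw [hA] at hAA
        simp only [if_neg hRu, if_neg hRv', hq] at hAA
        apply hχ u v hK
        cases h6 : χ u <;> cases h7 : χ v <;> rw [h6, h7] at hAA <;>
          cases h8 : ζ (Quot.mk (Rl (Kem G U c) Rv) v) <;> rw [h8] at hAA <;> simp_all

end Pool.Agent.TH104.CF
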