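import Mathlib
import Pool.Agent.TH104.CF.E

set_option autoImplicit false

/-!
# A balanced partition of a claw-free graph
-/

namespace Pool.Agent.TH104.CF

open Finset

theorem split_all {V : Type} [Fintype V] (G : SimpleGraph V) [DecidableRel G.Adj]
    (hcf : ClawFree G) (D M B : ℕ) (hM : 1 ≤ M) (hD1 : 1 ≤ D) (hD : ∀ v, G.degree v ≤ D)
    (hB : 2 * (D : ℝ) / M ≤ ((B + 1 : ℕ) : ℝ))
    (h4 : 4 * Real.exp (-((D : ℝ) / (3 * (M : ℝ)))) * (2 * D ^ 2 : ℕ) ≤ 1)
    (t : ℝ) (ht : 0 ≤ t)
    (h5 : 4 * (2 * Real.exp (-(t ^ 2) / (8 * D))) * (2 * D ^ 3 : ℕ) ≤ 1)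
    (c₀ : V → ℕ) (k : ℕ) (hc1 : ∀ v, c₀ v < k) (hc2 : ∀ u v, G.Adj u v → c₀ u ≠ c₀ v) (j : ℕ) :
    ∃ T : V → ℕ, (∀ v, T v < 2 ^ j) ∧
      (∀ v y, (((G.neighborFinset v).filter (fun u => T u = y)).card : ℝ) ≤
        D / 2 ^ j + 2 * (t + B)) ∧
      ∃ (k' : ℕ) (c : V → ℕ), (k' : ℝ) ≤ k / 2 ^ j + 2 * ((B : ℝ) + 2) ∧ (∀ v, c v < k') ∧
        ∀ u v, G.Adj u v → T u = T v → c u ≠ c v := by
  classical
  have hBr : (0 : ℝ) ≤ B := Nat.cast_nonneg B
  induction j with
  | zero =>
    refine ⟨fun _ => 0, fun _ => by norm_num, ?_, k, c₀, ?_, hc1, fun u v h _ => hc2 u v h⟩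
    · intro v y
      have h1 : ((G.neighborFinset v).filter (fun _ => 0 = y)).card ≤ D := by
        refine (Finset.card_le_card (Finset.filter_subset _ _)).trans ?_
        rw [SimpleGraph.card_neighborFinset_eq_degree]; exact hD v
      have h2 : (((G.neighborFinset v).filter (fun _ => 0 = y)).card : ℝ) ≤ D := by
        exact_mod_cast h1
      rw [pow_zero, div_one]
      linarith
    · rw [pow_zero, div_one]
      linarith
  | succ j ih =>
    obtain ⟨T, hT1, hT2, k', c, hk', hc1', hc2'⟩ := ih
    have hall : ∀ y : ℕ, ∃ A : V → Bool,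
        (∀ v b, (((G.neighborFinset v).filter
          (fun u => decide (T u = y) = true ∧ A u = b)).card : ℝ) ≤
            (D / 2 ^ j + 2 * (t + B)) / 2 + t + B) ∧
        ∃ c' : V → ℕ, (∀ v, decide (T v = y) = true → c' v < (k' + 1) / 2 + (B + 1)) ∧
          ∀ u v, decide (T u = y) = true → decide (T v = y) = true → A u = A v → G.Adj u v →
            c' u ≠ c' v := by
      intro y
      apply halving G hcf D M B hM hD1 hD hB h4 t ht h5 (fun u => decide (T u = y)) c k'
        (fun v _ => hc1' v)
      · intro u v hu hv huv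
        rw [decide_eq_true_eq] at hu hv
        exact hc2' u v huv (hu.trans hv.symm)
      · intro v
        refine le_trans (le_of_eq ?_) (hT2 v y)
        congr 2
        apply Finset.filter_congr
        intro u _
        rw [decide_eq_true_eq]
    choose A hA1 c' hA2 hA3 using hall
    refine ⟨fun v => 2 * T v + (if A (T v) v = true then 1 else 0), ?_, ?_,
      (k' + 1) / 2 + (B + 1), fun v => c' (T v) v, ?_, ?_, ?_⟩
    · intro v
      show 2 * T v + (if A (T v) v = true then 1 else 0) < 2 ^ (j + 1)
      have := hT1 v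
      rw [pow_succ]
      split_ifs <;> omega
    · intro v y
      have hsub : (G.neighborFinset v).filter
          (fun u => 2 * T u + (if A (T u) u = true then 1 else 0) = y) ⊆
          (G.neighborFinset v).filter
          (fun u => decide (T u = y / 2) = true ∧ A (y / 2) u = decide (y % 2 = 1)) := by
        intro u hu
        rw [mem_filter] at hu ⊢
        refine ⟨hu.1, ?_⟩
        obtain ⟨_, h1⟩ := hu
        by_cases hb : A (T u) u = true
        · rw [if_pos hb] at h1
          have h2 : T u = y / 2 := by omega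
          have h3 : y % 2 = 1 := by omega
          refine ⟨decide_eq_true h2, ?_⟩
          rw [← h2, hb]
          simp [h3]
        · rw [if_neg hb] at h1
          have h2 : T u = y / 2 := by omega
          have h3 : y % 2 = 0 := by omega
          refine ⟨decide_eq_true h2, ?_⟩
          rw [Bool.not_eq_true] at hb
          rw [← h2, hb]
          simp [h3]
      have h1 : (((G.neighborFinset v).filter
          (fun u => 2 * T u + (if A (T u) u = true then 1 else 0) = y)).card : ℝ) ≤
          (((G.neighborFinset v).filter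
          (fun u => decide (T u = y / 2) = true ∧ A (y / 2) u = decide (y % 2 = 1))).card : ℝ) := by
        exact_mod_cast Finset.card_le_card hsub
      have h2 := hA1 (y / 2) v (decide (y % 2 = 1))
      have h3 : (D : ℝ) / 2 ^ (j + 1) = D / 2 ^ j / 2 := by
        rw [pow_succ]; field_simp
      rw [h3]
      refine h1.trans (h2.trans (le_of_eq ?_))
      ring
    · have h1 : (((k' + 1) / 2 : ℕ) : ℝ) ≤ ((k' : ℝ) + 1) / 2 := by
        have := @Nat.cast_div_le ℝ _ _ _ (k' + 1) 2
        push_cast at this
        exact this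
      have h3 : (k : ℝ) / 2 ^ (j + 1) = k / 2 ^ j / 2 := by
        rw [pow_succ]; field_simp
      push_cast
      rw [h3]
      linarith
    · intro v
      exact hA2 (T v) v (by simp)
    · intro u v huv hTT
      have hTT' : 2 * T u + (if A (T u) u = true then 1 else 0) =
        2 * T v + (if A (T v) v = true then 1 else 0) := hTT
      have h1 : T u = T v := by
        split_ifs at hTT' <;> omega
      have h2 : A (T u) u = A (T u) v := by
        rw [← h1] at hTT'
        cases h3 : A (T u) u <;> cases h4 : A (T u) v <;> rw [h3, h4] at hTT' <;> simp_all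
      have h3 := hA3 (T u) u v (by simp) (by simp [h1]) h2 huv
      show c' (T u) u ≠ c' (T v) v
      rw [← h1]
      exact h3

end Pool.Agent.TH104.CF
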