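import Mathlib
import Pool.Agent.TH104.HY.E
import Pool.Agent.TH104.LS.E
import Pool.Agent.TH104.CF.F

set_option autoImplicit false

/-!
# Claw-free graphs
-/

namespace Pool.Agent.TH104.CF

open Finset Pool.Agent.Helper635.LLL Pool.Agent.H238R2.HY Pool.Agent.TH104.HY
  Pool.Agent.TH104.LS

lemma cond4 {D M : ℝ} (hM : 0 < M) (hD : 0 < D) (h : 48 * (3 * M) ^ 3 ≤ D) :
    4 * Real.exp (-(D / (3 * M))) * (2 * D ^ 2) ≤ 1 := by
  have hc : (0 : ℝ) < 1 / (3 * M) := by positivity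
  have h1 := exp_small hc hD
  have e1 : 1 / (3 * M) * D = D / (3 * M) := by ring
  rw [e1] at h1
  have h2 : 6 / ((1 / (3 * M)) ^ 3 * D) * 8 ≤ 1 := by
    have h3 : 6 / ((1 / (3 * M)) ^ 3 * D) * 8 = 48 * (3 * M) ^ 3 / D := by
      field_simp; ring
    rw [h3, div_le_one hD]
    exact h
  calc 4 * Real.exp (-(D / (3 * M))) * (2 * D ^ 2) = Real.exp (-(D / (3 * M))) * D ^ 2 * 8 := by
        ring
    _ ≤ 6 / ((1 / (3 * M)) ^ 3 * D) * 8 := mul_le_mul_of_nonneg_right h1 (by norm_num)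
    _ ≤ 1 := h2

lemma cond5 {D m t : ℝ} (hm : 0 < m) (hD : 1 ≤ D) (ht : t = D / (64 * m ^ 2))
    (h : 1920 * (2 ^ 15 * m ^ 4) ^ 5 ≤ D) :
    4 * (2 * Real.exp (-(t ^ 2) / (8 * D))) * (2 * D ^ 3) ≤ 1 := by
  have hD0 : 0 < D := by linarith
  have hc : (0 : ℝ) < 1 / (2 ^ 15 * m ^ 4) := by positivity
  have h1 := exp_small5 hc hD0
  have e1 : -(t ^ 2) / (8 * D) = -(1 / (2 ^ 15 * m ^ 4) * D) := by
    rw [ht]; field_simp; ring
  rw [e1]
  have h2 : 120 / ((1 / (2 ^ 15 * m ^ 4)) ^ 5 * D) * 16 ≤ 1 := by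
    have h3 : 120 / ((1 / (2 ^ 15 * m ^ 4)) ^ 5 * D) * 16 = 1920 * (2 ^ 15 * m ^ 4) ^ 5 / D := by
      field_simp; ring
    rw [h3, div_le_one hD0]
    exact h
  have h4 : D ^ 3 ≤ D ^ 4 := pow_le_pow_right₀ hD (by norm_num)
  calc 4 * (2 * Real.exp (-(1 / (2 ^ 15 * m ^ 4) * D))) * (2 * D ^ 3)
      ≤ 4 * (2 * Real.exp (-(1 / (2 ^ 15 * m ^ 4) * D))) * (2 * D ^ 4) := by gcongr
    _ = Real.exp (-(1 / (2 ^ 15 * m ^ 4) * D)) * D ^ 4 * 16 := by ring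
    _ ≤ 120 / ((1 / (2 ^ 15 * m ^ 4)) ^ 5 * D) * 16 := mul_le_mul_of_nonneg_right h1 (by norm_num)
    _ ≤ 1 := h2

lemma star_ok {D m t B M e x : ℝ} (hm : 1 ≤ m) (hD : 0 < D) (he2 : e ≤ 1)
    (ht : t = D / (64 * m ^ 2)) (hx : x = 1 / (4 * m)) (hM0 : 0 < M) (hB : B * M ≤ 2 * D)
    (hM : 128 * m ^ 2 ≤ e * M) :
    D / (2 * m) + 2 * (t + B) ≤ (1 + x) * D / (2 * m) := by
  have hm0 : 0 < m := by linarith
  have hM1 : 128 * m ^ 2 ≤ M := by nlinarith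
  have hBt : B ≤ D / (64 * m ^ 2) := by
    rw [le_div_iff₀ (by positivity)]
    by_cases hB0 : B ≤ 0
    · have : B * (64 * m ^ 2) ≤ 0 := mul_nonpos_of_nonpos_of_nonneg hB0 (by positivity)
      linarith
    · rw [not_le] at hB0
      have : B * (128 * m ^ 2) ≤ B * M := mul_le_mul_of_nonneg_left hM1 hB0.le
      linarith
  have h1 : (1 + x) * D / (2 * m) = D / (2 * m) + D / (8 * m ^ 2) := by
    rw [hx]; field_simp; ring
  rw [h1]
  have h2 : 2 * (t + B) ≤ D / (16 * m ^ 2) := by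
    have h3 : D / (16 * m ^ 2) = 2 * (D / (64 * m ^ 2) + D / (64 * m ^ 2)) := by
      field_simp; ring
    rw [h3, ht]; linarith
  have h4 : D / (16 * m ^ 2) ≤ D / (8 * m ^ 2) := by
    apply div_le_div_of_nonneg_left hD.le (by positivity)
    nlinarith
  linarith

lemma col_ok {D m B M e x s s' : ℝ} (hm : 1 ≤ m) (hD : 0 < D) (he : 0 < e)
    (hx : x = 1 / (4 * m)) (hM0 : 0 < M) (hB : B * M ≤ 2 * D) (hM : 128 * m ^ 2 ≤ e * M)
    (hss : s ≤ s') (hs2 : e * D / 2 ≤ s') (hDm : 128 * m ^ 2 ≤ e * D) :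
    s / (2 * m) + 2 * (B + 2) ≤ (1 + x) * s' / (2 * m) := by
  have hm0 : 0 < m := by linarith
  have h1 : (1 + x) * s' / (2 * m) = s' / (2 * m) + s' / (8 * m ^ 2) := by
    rw [hx]; field_simp; ring
  rw [h1]
  have h2 : s / (2 * m) ≤ s' / (2 * m) := div_le_div_of_nonneg_right hss (by positivity)
  have h3 : e * D / (16 * m ^ 2) ≤ s' / (8 * m ^ 2) := by
    rw [div_le_div_iff₀ (by positivity) (by positivity)]
    have := mul_le_mul_of_nonneg_right hs2 (by positivity : (0 : ℝ) ≤ 16 * m ^ 2)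
    linarith
  have h4 : B ≤ e * D / (64 * m ^ 2) := by
    rw [le_div_iff₀ (by positivity)]
    have h5 : B * (64 * m ^ 2) * M ≤ e * D * M := by
      have h6 : 2 * D * (64 * m ^ 2) ≤ D * (e * M) := by
        have := mul_le_mul_of_nonneg_left hM hD.le
        linarith
      have h7 := mul_le_mul_of_nonneg_right hB (by positivity : (0 : ℝ) ≤ 64 * m ^ 2)
      linarith
    exact le_of_mul_le_mul_right h5 hM0
  have h5 : (2 : ℝ) ≤ e * D / (64 * m ^ 2) := by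
    rw [le_div_iff₀ (by positivity)]
    linarith
  have h6 : e * D / (16 * m ^ 2) = 4 * (e * D / (64 * m ^ 2)) := by field_simp; ring
  rw [h6] at h3
  linarith

set_option maxHeartbeats 2000000 in
/-- the structure theorem with real parameters -/
theorem cf_core {V : Type} [Fintype V] (G : SimpleGraph V) [DecidableRel G.Adj]
    (hcf : ClawFree G)
    (D s s' p q m i M : ℕ) (e : ℝ) (he : 0 < e) (he2 : e ≤ 1 / 2) (hmi : m = 2 ^ i)
    (hM : 128 * (m : ℝ) ^ 2 ≤ e * M) (hD : ∀ v, G.degree v ≤ D)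
    (c₀ : V → ℕ) (hc1 : ∀ v, c₀ v < s) (hc2 : ∀ u v, G.Adj u v → c₀ u ≠ c₀ v)
    (hss : s ≤ s') (hs1 : (s' : ℝ) ≤ (1 - e) * D) (hs2 : e * D / 2 ≤ s')
    (hs3 : (s' : ℝ) ≤ s + e * D / 2 + 1) (hp : (s : ℝ) + e * D ≤ 2 * p)
    (hq : 1 ≤ ((q : ℝ) + 1) * e) (hm : 8 * (q : ℝ) + 12 ≤ e * ((m : ℝ) - 1 - q))
    (hD1 : 24 * (m : ℝ) ≤ e * D) (hD2 : 4 * (m : ℝ) * (2 * m + 1) ≤ D)
    (hD3 : 48 * (3 * (M : ℝ)) ^ 3 ≤ D) (hD4 : 1920 * (2 ^ 15 * (m : ℝ) ^ 4) ^ 5 ≤ D)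
    (hD5 : 128 * (m : ℝ) ^ 2 ≤ e * D) :
    TotLab G p (D + 2 * p - 1) := by
  classical
  have hq0 : (0 : ℝ) ≤ q := by positivity
  have hZ : 8 * (q : ℝ) + 12 ≤ (m : ℝ) - 1 - q := by nlinarith
  have hm2 : 2 * (q : ℝ) + 1 ≤ m := by linarith
  have hm2' : 2 * q + 1 ≤ m := by exact_mod_cast hm2
  have hmR : (13 : ℝ) ≤ m := by linarith
  have hm0 : (0 : ℝ) < m := by linarith
  have hDpos : (0 : ℝ) < D := by nlinarith
  have hem : 8 * (q : ℝ) + 12 ≤ e * m := by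
    have : 0 ≤ e * (1 + q) := by positivity
    linarith
  obtain ⟨x, hx⟩ : ∃ x : ℝ, x = 1 / (4 * (m : ℝ)) := ⟨_, rfl⟩
  have hxm : x * m = 1 / 4 := by rw [hx]; field_simp
  have hx0 : 0 < x := by rw [hx]; positivity
  have hx4 : x ≤ 1 / 4 := by nlinarith
  obtain ⟨u, hu⟩ : ∃ u : ℝ, u = (1 + x) * D / (2 * (m : ℝ)) := ⟨_, rfl⟩
  have hum : 2 * m * u = D + x * D := by rw [hu]; field_simp
  have hu0 : 0 < u := by rw [hu]; positivity
  have hmu : (D : ℝ) ≤ 2 * m * u := by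
    rw [hum]
    have : 0 ≤ x * D := by positivity
    linarith
  have hs'0 : (0 : ℝ) < s' := by
    have : 0 < e * D / 2 := by positivity
    linarith
  have hs'Dr : (s' : ℝ) ≤ D := by
    have : 0 < e * D := by positivity
    linarith
  have hs'D : s' ≤ D := by exact_mod_cast hs'Dr
  have hD1' : 1 ≤ D := by
    have : (0 : ℝ) < D := hDpos
    exact_mod_cast this
  have hD1r : (1 : ℝ) ≤ D := by exact_mod_cast hD1'
  have hMpos : (0 : ℝ) < M := by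
    by_contra h
    rw [not_lt] at h
    have h1 : e * (M : ℝ) ≤ 0 := mul_nonpos_of_nonneg_of_nonpos he.le h
    have h2 : 0 < 128 * (m : ℝ) ^ 2 := by positivity
    linarith
  have hM1 : 1 ≤ M := by exact_mod_cast hMpos
  obtain ⟨B, hBdef⟩ : ∃ B : ℕ, B = ⌊2 * (D : ℝ) / M⌋₊ := ⟨_, rfl⟩
  have hB1 : 2 * (D : ℝ) / M ≤ ((B + 1 : ℕ) : ℝ) := by
    rw [hBdef]; push_cast; exact (Nat.lt_floor_add_one _).le
  have hB2 : (B : ℝ) * M ≤ 2 * D := by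
    have h1 : (B : ℝ) ≤ 2 * (D : ℝ) / M := by rw [hBdef]; exact Nat.floor_le (by positivity)
    rwa [le_div_iff₀ hMpos] at h1
  obtain ⟨t, ht⟩ : ∃ t : ℝ, t = D / (64 * (m : ℝ) ^ 2) := ⟨_, rfl⟩
  have ht0 : 0 ≤ t := by rw [ht]; positivity
  obtain ⟨T, hT1, hT2, kk, c, hkk, hcc1, hcc2⟩ := split_all G hcf D M B hM1 hD1' hD hB1
    (by
      have := cond4 hMpos hDpos hD3
      push_cast
      exact this) t ht0
    (by
      have := cond5 hm0 hD1r ht hD4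
      push_cast
      exact this) c₀ s hc1 hc2 (i + 1)
  have hpow : (2 : ℝ) ^ (i + 1) = 2 * m := by
    rw [hmi, pow_succ]; push_cast; ring
  have hpowN : 2 ^ (i + 1) = 2 * m := by rw [hmi, pow_succ]; ring
  rw [hpow] at hT2 hkk
  rw [hpowN] at hT1
  obtain ⟨w, hw⟩ : ∃ w : ℕ, w = ⌊(1 + x) * D / (2 * (m : ℝ))⌋₊ := ⟨_, rfl⟩
  obtain ⟨k', hk'⟩ : ∃ k' : ℕ, k' = ⌊(1 + x) * s' / (2 * (m : ℝ))⌋₊ := ⟨_, rfl⟩
  have hstar := star_ok (B := (B : ℝ)) (M := (M : ℝ)) (by linarith : (1 : ℝ) ≤ m) hDpos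
    (by linarith : e ≤ 1) ht hx hMpos hB2 hM
  have hcol := col_ok (B := (B : ℝ)) (M := (M : ℝ)) (s := (s : ℝ)) (s' := (s' : ℝ))
    (by linarith : (1 : ℝ) ≤ m) hDpos he hx hMpos hB2 hM (by exact_mod_cast hss) hs2 hD5
  have ht2 : ∀ v y, ((G.neighborFinset v).filter (fun u => T u = y)).card ≤ w := by
    intro v y
    rw [hw]
    exact Nat.le_floor ((hT2 v y).trans hstar)
  have hkk2 : kk ≤ k' + 1 := by
    have h1 : (kk : ℝ) ≤ (1 + x) * s' / (2 * (m : ℝ)) := hkk.trans hcol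
    have h2 : kk ≤ k' := by rw [hk']; exact Nat.le_floor h1
    omega
  have hwu : (w : ℝ) ≤ u := by rw [hw, hu]; exact Nat.floor_le (by positivity)
  have huw : u ≤ w + 1 := by rw [hw, hu]; exact (Nat.lt_floor_add_one _).le
  have hku : (k' : ℝ) ≤ (1 + x) * s' / (2 * (m : ℝ)) := by
    rw [hk']; exact Nat.floor_le (by positivity)
  have hku2 : 2 * m * (k' : ℝ) ≤ (1 + x) * s' := by
    rw [le_div_iff₀ (by positivity)] at hku
    linarith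
  have hku3 : (k' : ℝ) ≤ (1 - e) * u := by
    refine hku.trans ?_
    rw [hu, ← mul_div_assoc]
    refine div_le_div_of_nonneg_right ?_ (by positivity)
    have := mul_le_mul_of_nonneg_left hs1 (by linarith : (0 : ℝ) ≤ 1 + x)
    linarith
  have hkw : k' + 1 ≤ w + 1 := by
    have : k' ≤ w := by
      rw [hk', hw]
      apply Nat.floor_mono
      refine div_le_div_of_nonneg_right ?_ (by positivity)
      exact mul_le_mul_of_nonneg_left hs'Dr (by linarith)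
    omega
  have hs0 : (0 : ℝ) ≤ s := by positivity
  have hp1 : 1 ≤ p := by
    have h1 : (0 : ℝ) < e * D := by positivity
    have : (0 : ℝ) < p := by linarith
    exact_mod_cast this
  -- u e ≥ 12
  have hue : 12 ≤ e * u := by
    have h1 : 24 * (m : ℝ) ≤ e * (2 * m * u) := hD1.trans (mul_le_mul_of_nonneg_left hmu he.le)
    have h3 : (2 * (m : ℝ)) * 12 ≤ (2 * (m : ℝ)) * (e * u) := by linarith
    exact le_of_mul_le_mul_left h3 (by positivity)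
  have hk0 : (0 : ℝ) ≤ k' := by positivity
  refine structB G m q w (k' + 1) p D hm2' hp1 T hT1 ht2 c
    (fun v => lt_of_lt_of_le (hcc1 v) hkk2) hcc2 hkw ?_ ?_ ?_ ?_
  · have h := arH1 hq0 hu0 hm hZ hue huw hku3
    exact_mod_cast h
  · have h := arH2 hq0 hu0 hm0 hq hZ hwu hku3 hxm hum hmu hD2
    exact_mod_cast h
  · have h := arH3 hm0 hx0 hx4 hDpos he hs'Dr hq0 hem hwu hxm hum hku2 hs3 hp hD1
    exact_mod_cast h
  · have h := arH4 hm0 hx4 hk0 hs0 hDpos he he2 hq0 hem hwu hum hp hD1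
    exact_mod_cast h

theorem cf_main (ε : ℝ) (hε : 0 < ε) : ∃ D₀ : ℕ, ∀ (V : Type) [Fintype V]
    (G : SimpleGraph V) [DecidableRel G.Adj] (D k p : ℕ), D₀ ≤ D → (∀ v, G.degree v ≤ D) →
    ClawFree G → (∃ c : V → ℕ, (∀ v, c v < k) ∧ ∀ u v, G.Adj u v → c u ≠ c v) →
    (k : ℝ) ≤ (1 - ε) * D → (k : ℝ) + ε * D ≤ 2 * p → TotLab G p (D + 2 * p - 1) := by
  obtain ⟨e, he⟩ : ∃ e : ℝ, e = min ε (1 / 2) := ⟨_, rfl⟩
  have he0 : 0 < e := by rw [he]; exact lt_min hε (by norm_num)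
  have heε : e ≤ ε := by rw [he]; exact min_le_left _ _
  have he2 : e ≤ 1 / 2 := by rw [he]; exact min_le_right _ _
  obtain ⟨q, hq⟩ : ∃ q : ℕ, 1 / e ≤ q := exists_nat_ge _
  obtain ⟨i, hi⟩ : ∃ i : ℕ, (8 * (q : ℝ) + 12) / e + 1 + q < 2 ^ i :=
    pow_unbounded_of_one_lt _ (by norm_num)
  obtain ⟨m, hm⟩ : ∃ m : ℕ, m = 2 ^ i := ⟨_, rfl⟩
  have hmr : (8 * (q : ℝ) + 12) / e + 1 + q ≤ m := by
    rw [hm]; push_cast; exact hi.le
  obtain ⟨M, hM⟩ : ∃ M : ℕ, 128 * (m : ℝ) ^ 2 / e ≤ M := exists_nat_ge _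
  obtain ⟨D₀, hD₀⟩ : ∃ D₀ : ℕ, 24 * (m : ℝ) / e + 4 * (m : ℝ) * (2 * m + 1) +
    48 * (3 * (M : ℝ)) ^ 3 + 1920 * (2 ^ 15 * (m : ℝ) ^ 4) ^ 5 + 128 * (m : ℝ) ^ 2 / e + 4 ≤ D₀ :=
    exists_nat_ge _
  refine ⟨D₀, ?_⟩
  intro V _ G _ D s p hD₀D hD hcf hcol hs hp
  obtain ⟨c₀, hc1, hc2⟩ := hcol
  have hDr : (D₀ : ℝ) ≤ D := by exact_mod_cast hD₀D
  have a1 : 0 ≤ 24 * (m : ℝ) / e := by positivity
  have a2 : 0 ≤ 4 * (m : ℝ) * (2 * m + 1) := by positivity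
  have a3 : 0 ≤ 48 * (3 * (M : ℝ)) ^ 3 := by positivity
  have a4 : 0 ≤ 1920 * (2 ^ 15 * (m : ℝ) ^ 4) ^ 5 := by positivity
  have a5 : 0 ≤ 128 * (m : ℝ) ^ 2 / e := by positivity
  have hD4 : (4 : ℝ) ≤ D := by linarith
  have hDe : e * D ≤ ε * D := mul_le_mul_of_nonneg_right heε (by linarith)
  have hDe2 : e * D ≤ 1 / 2 * D := mul_le_mul_of_nonneg_right he2 (by linarith)
  have hDe0 : 0 ≤ e * D := by positivity
  have hceil := Nat.ceil_lt_add_one (a := e * D / 2) (by positivity)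
  have hs0 : (0 : ℝ) ≤ s := by positivity
  refine cf_core G hcf D s (max s ⌈e * D / 2⌉₊) p q m i M e he0 he2 hm ?_ hD c₀ hc1 hc2
    (le_max_left _ _) ?_ ?_ ?_ ?_ ?_ ?_ ?_ ?_ ?_ ?_ ?_
  · rw [div_le_iff₀ he0] at hM
    linarith
  · rw [Nat.cast_max]
    apply max_le
    · linarith
    · linarith
  · rw [Nat.cast_max]
    exact (Nat.le_ceil _).trans (le_max_right _ _)
  · rw [Nat.cast_max]
    apply max_le
    · linarith
    · linarith
  · linarith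
  · have h1 : 1 ≤ q * e := by rwa [div_le_iff₀ he0] at hq
    linarith
  · have h1 : (8 * (q : ℝ) + 12) / e ≤ m - 1 - q := by linarith
    rw [div_le_iff₀ he0] at h1
    linarith
  · have h1 : 24 * (m : ℝ) / e ≤ D := by linarith
    rw [div_le_iff₀ he0] at h1
    linarith
  · linarith
  · linarith
  · linarith
  · have h1 : 128 * (m : ℝ) ^ 2 / e ≤ D := by linarith
    rw [div_le_iff₀ he0] at h1
    linarith

end Pool.Agent.TH104.CF
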